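import Mathlib
import Pool.Agent.Helper11.GN.L2
import Pool.Agent.Helper11.BD.Aniso

/-!
# The last slot of a class on a product
-/

universe u v w

open CategoryTheory Finset

namespace Pool.Agent.Helper11.BD

open Pool.Agent.Helper10 hiding IsAlgAut parityPart
open SmProjVar Pool.Agent.Helper10.GIT
open Pool.Agent.Helper11.Obs (extProd wordClass prodVar prodFst prodProj IsNumTrivial parityPart
  power wordVar AreRelatedFlags)

variable {k : Type u} [Field k] {K : Type v} [Field K] [CharZero K]
  (W : WeilCohomology.{u, v, w} k K) {F : Subfield K}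

/-- the external products span the cohomology of a product -/
lemma span_extProd' {b : ℕ} (V : Fin b → SmProjVar k) :
    Submodule.span K (Set.range fun v : ∀ i, W.H (V i) =>
      (extProd W.toCohomologyData (A := pt k) 1 v : W.H (prodVar (pt k) V))) = ⊤ := by
  induction b with
  | zero =>
    rw [eq_top_iff]
    rintro x -
    have h1 : (1 : W.H (pt k)) ≠ 0 := by
      intro h
      apply trL_pt_ne_zero W
      rw [h, map_zero]
    obtain ⟨c, hc⟩ := Ro.exists_smul_of_dim_zero W (X := pt k) (Ro.power_pt_dim 0) h1 x
    have h2 : (extProd W.toCohomologyData (A := pt k) 1 (fun i => i.elim0 : ∀ i, W.H (V i)) :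
        W.H (prodVar (pt k) V)) = (1 : W.H (pt k)) := by
      change W.pullA (𝟙 (pt k).toOver) 1 * (1 : W.H (pt k)) = 1
      rw [map_one, mul_one]
    have h3 : x = c • (extProd W.toCohomologyData (A := pt k) 1
        (fun i => i.elim0 : ∀ i, W.H (V i)) : W.H (prodVar (pt k) V)) := by
      rw [h2]
      exact hc
    rw [h3]
    exact Submodule.smul_mem _ _ (Submodule.subset_span ⟨fun i => i.elim0, rfl⟩)
  | succ b ih =>
    rw [eq_top_iff]
    rintro z -
    let A : SmProjVar k := prodVar (pt k) fun i : Fin b => V i.castSucc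
    let B : SmProjVar k := V (Fin.last b)
    let m : TensorProduct K (W.H A) (W.H B) →ₗ[K] W.H (A.prod B) :=
      LinearMap.mul' K _ ∘ₗ
        TensorProduct.map (W.pullA (fst A B)).toLinearMap (W.pullA (snd A B)).toLinearMap
    have hm : ∀ a b', m (TensorProduct.tmul K a b') =
        W.pull (fst A B) a * W.pull (snd A B) b' := fun a b' => rfl
    obtain ⟨s, rfl⟩ := (W.kunneth A B m hm).2 z
    induction s using TensorProduct.induction_on with
    | zero => rw [map_zero]; exact Submodule.zero_mem _
    | tmul a y =>
      have ha : a ∈ Submodule.span K (Set.range fun v : ∀ i : Fin b, W.H (V i.castSucc) =>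
        (extProd W.toCohomologyData (A := pt k) 1 v : W.H A)) := by
          rw [ih fun i => V i.castSucc]; trivial
      induction ha using Submodule.span_induction with
      | mem a ha =>
        obtain ⟨v, rfl⟩ := ha
        refine Submodule.subset_span ⟨Fin.snoc (α := fun i => W.H (V i)) v y, ?_⟩
        change extProd W.toCohomologyData (A := pt k) 1
          (Fin.snoc (α := fun i => W.H (V i)) v y) = _
        rw [Can.extProd_succ, hm, Fin.snoc_last]
        congr 3
        funext i
        rw [Fin.snoc_castSucc]
      | zero => rw [TensorProduct.zero_tmul, map_zero]; exact Submodule.zero_mem _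
      | add a a' _ _ ha ha' =>
        rw [TensorProduct.add_tmul, map_add]; exact Submodule.add_mem _ ha ha'
      | smul c a _ ha => rw [← TensorProduct.smul_tmul', map_smul]; exact Submodule.smul_mem _ _ ha
    | add x y hx hy => rw [map_add]; exact Submodule.add_mem _ hx hy

/-- a nonzero class on a product is not orthogonal to all external products -/
lemma exists_extProd_ne_zero {b : ℕ} {V : Fin b → SmProjVar k} {z : W.H (prodVar (pt k) V)}
    (hz : z ≠ 0) : ∃ v : ∀ i, W.H (V i), W.trL (prodVar (pt k) V)
      (z * (extProd W.toCohomologyData (A := pt k) 1 v : W.H (prodVar (pt k) V))) ≠ 0 := by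
  by_contra hcon
  push Not at hcon
  apply hz
  refine (W.trace _).nondegenerate _ fun y => ?_
  change W.trL (prodVar (pt k) V) (z * y) = 0
  have hy : y ∈ Submodule.span K (Set.range fun v : ∀ i, W.H (V i) =>
      (extProd W.toCohomologyData (A := pt k) 1 v : W.H (prodVar (pt k) V))) := by
    rw [span_extProd']; trivial
  induction hy using Submodule.span_induction with
  | mem y hy =>
    obtain ⟨v, rfl⟩ := hy
    exact hcon v
  | zero => rw [mul_zero, map_zero]
  | add a b _ _ ha hb => rw [mul_add, map_add, ha, hb, add_zero]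
  | smul c a _ ha => rw [mul_smul_comm, map_smul, ha, smul_zero]

/-- pushing a class to the product without the point factors -/
lemma exists_pt {l b : ℕ} {V : Fin b → SmProjVar k} {z : W.H (prodVar (power (pt k) l) V)}
    (hz : z ∈ Rn.nt W F (prodVar (power (pt k) l) V)) {x : W.H (power (pt k) l)} (hx : x ≠ 0) :
    ∃ (z' : W.H (prodVar (pt k) V)) (c : K), c ≠ 0 ∧
      z' ∈ cycleSpan W.toCohomologyData F (prodVar (pt k) V) ∧ ∀ v : ∀ i, W.H (V i),
        W.pairing (prodVar (pt k) V) z' (extProd W.toCohomologyData (A := pt k) 1 v) =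
          c * W.pairing (prodVar (power (pt k) l) V) z (extProd W.toCohomologyData x v) := by
  obtain ⟨Z, hZ, hZF, hZv⟩ := Ro.exists_push W (F := F) (A := pt k)
    (V := V) (toPt k (prodVar (power (pt k) l) V)) (prodProj (power (pt k) l) V) hz.2 hz.1
  obtain ⟨c, hc⟩ := Ro.exists_smul_of_dim_zero W (Ro.power_pt_dim l) hx
    (1 : W.H (power (pt k) l))
  refine ⟨Z, c, ?_, hZF, fun v => ?_⟩
  · rintro rfl
    rw [zero_smul] at hc
    apply hx
    rw [← one_mul x, hc, zero_mul]
  · rw [← hZv]
    have h1 : wordClass W.toCohomologyData (toPt k (prodVar (power (pt k) l) V))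
        (prodProj (power (pt k) l) V) 1 v = c • extProd W.toCohomologyData x v := by
      rw [← Ro.extProd_smul, ← hc]
      change W.pullA _ 1 * _ = W.pullA _ 1 * _
      rw [map_one, map_one]
    rw [h1]
    exact Can.pairing_smul W z c _

/-- the last slot of a class on a product is in the homogeneous subspace `G` -/
lemma mem_last_slot {b : ℕ} {V : Fin (b + 1) → SmProjVar k} {z : W.H (prodVar (pt k) V)}
    {G : Submodule K (W.H (V (Fin.last b)))} {i : ℕ} (hG : G ≤ W.gr (V (Fin.last b)) i)
    (h : ∀ v : ∀ i, W.H (V i), (∀ g ∈ G, W.trL (V (Fin.last b)) (v (Fin.last b) * g) = 0) →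
      W.trL (prodVar (pt k) V)
        (z * (extProd W.toCohomologyData (A := pt k) 1 v : W.H (prodVar (pt k) V))) = 0) :
    (z : W.H ((prodVar (pt k) fun i : Fin b => V i.castSucc).prod (V (Fin.last b)))) ∈
      Submodule.span K {t | ∃ a, ∃ g ∈ G,
        t = W.pull (fst (prodVar (pt k) fun i : Fin b => V i.castSucc) (V (Fin.last b))) a *
          W.pull (snd (prodVar (pt k) fun i : Fin b => V i.castSucc) (V (Fin.last b))) g} := by
  refine mem_span_slot W hG fun a v hv => ?_
  have ha : a ∈ Submodule.span K (Set.range fun v : ∀ i : Fin b, W.H (V i.castSucc) =>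
      (extProd W.toCohomologyData (A := pt k) 1 v :
        W.H (prodVar (pt k) fun i : Fin b => V i.castSucc))) := by
    rw [span_extProd' W fun i => V i.castSucc]; trivial
  have hv' : ∀ g ∈ G, W.trL (V (Fin.last b)) (v * g) = 0 := by
    intro g hg
    have h1 := trL_mul_par W (decide (Odd i)) (gr_le_par W _ i (hG hg)) v
    rw [hv g hg] at h1
    rcases mul_eq_zero.mp h1.symm with h2 | h2
    · split_ifs at h2
      · exact absurd h2 (neg_ne_zero.mpr one_ne_zero)
      · exact absurd h2 one_ne_zero
    · exact h2
  induction ha using Submodule.span_induction with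
  | mem a ha =>
    obtain ⟨v', rfl⟩ := ha
    have h1 := h (Fin.snoc (α := fun i => W.H (V i)) v' v) (by rw [Fin.snoc_last]; exact hv')
    rw [Can.extProd_succ, Fin.snoc_last] at h1
    have h2 : (fun i : Fin b => (Fin.snoc (α := fun i => W.H (V i)) v' v : ∀ i, W.H (V i))
        i.castSucc) = v' := by
      funext i
      rw [Fin.snoc_castSucc]
    rw [h2] at h1
    exact h1
  | zero =>
    have h1 : W.pull (fst (prodVar (pt k) fun i : Fin b => V i.castSucc) (V (Fin.last b))) 0 = 0 :=
      map_zero (W.pullA _)
    rw [h1, zero_mul, mul_zero, map_zero]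
  | add a a' _ _ ha ha' =>
    have h1 : W.pull (fst (prodVar (pt k) fun i : Fin b => V i.castSucc) (V (Fin.last b)))
        (a + a') = W.pull (fst _ _) a + W.pull (fst _ _) a' := map_add (W.pullA _) a a'
    rw [h1, add_mul, mul_add, map_add, ha, ha', add_zero]
  | smul c a _ ha =>
    have h1 : W.pull (fst (prodVar (pt k) fun i : Fin b => V i.castSucc) (V (Fin.last b)))
        (c • a) = c • W.pull (fst _ _) a := map_smul (W.pullA _) c a
    rw [h1, smul_mul_assoc, mul_smul_comm, map_smul, ha, smul_zero]

end Pool.Agent.Helper11.BD
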