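import Mathlib
import Pool.Agent.Helper11.GN.L3
import Pool.Agent.Helper41.SD.FamSlot

/-!
# Slots in subspaces of the even or the odd part
-/

universe u v w

open CategoryTheory Finset

namespace Pool.Agent.Helper11.BD

open Pool.Agent.Helper10 hiding IsAlgAut parityPart
open SmProjVar Pool.Agent.Helper10.GIT
open Pool.Agent.Helper11.Obs (extProd wordClass prodVar prodFst prodProj IsNumTrivial parityPart
  power wordVar AreRelatedFlags)

variable {k : Type u} [Field k] {K : Type v} [Field K] [CharZero K]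
  (W : WeilCohomology.{u, v, w} k K) {F : Subfield K}

lemma par_induction {X : SmProjVar k} {P : W.H X → Prop} (h : ∀ q, ∀ x ∈ par W q X, P x)
    (hadd : ∀ x y, P x → P y → P (x + y)) (x : W.H X) : P x := by
  obtain ⟨a, ha, b, hb, rfl⟩ := exists_parity W X x
  exact hadd _ _ (h false a ha) (h true b hb)

lemma parityPart_le_par (X : SmProjVar k) (p : ℕ) :
    parityPart W.toCohomologyData X p ≤ par W (decide (Odd p)) X := by
  refine iSup₂_le fun i hi => ?_
  have hi' : Even (i + p) := hi
  have h : decide (Odd i) = decide (Odd p) := by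
    rw [decide_eq_decide]
    rw [Nat.even_add] at hi'
    rw [← Nat.not_even_iff_odd, ← Nat.not_even_iff_odd, hi']
  rw [← h]
  exact gr_le_par W X i

lemma pull_add' {X Y : SmProjVar k} (f : X.toOver ⟶ Y.toOver) (a b : W.H Y) :
    W.pull f (a + b) = W.pull f a + W.pull f b := map_add (W.pullA f) a b

/-- exchanging the slots of a product -/
lemma pull_swap_par {A B : SmProjVar k} {p q : Bool} {a : W.H A} {b : W.H B}
    (ha : a ∈ par W q A) (hb : b ∈ par W p B) :
    W.pull (snd A B) b * W.pull (fst A B) a =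
      (if (p && q) then (-1 : ℤ) else 1) • (W.pull (fst A B) a * W.pull (snd A B) b) :=
  par_comm' W (pull_par W _ hb) (pull_par W _ ha)

/-- a class on `A × B` which is orthogonal to all `a × v` with `v` orthogonal to the subspace
`G` of the even or odd part of `H(B)` is a sum of classes `a × g` with `g ∈ G` -/
theorem mem_span_slot_par {A B : SmProjVar k} {z : W.H (A.prod B)} {G : Submodule K (W.H B)}
    {p : Bool} (hG : G ≤ par W p B)
    (h : ∀ (a : W.H A) (v : W.H B), (∀ g ∈ G, W.trL B (g * v) = 0) →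
      W.trL (A.prod B) (z * (W.pull (fst A B) a * W.pull (snd A B) v)) = 0) :
    z ∈ Submodule.span K {t | ∃ a, ∃ g ∈ G, t = W.pull (fst A B) a * W.pull (snd A B) g} := by
  classical
  obtain ⟨r, a, g, hexp, hg⟩ := exists_dual_expansion W A
  obtain ⟨b, rfl⟩ := exists_slot_expansion W hexp z
  have hb : ∀ t, b t ∈ G := by
    intro t
    refine mem_of_orth W fun v hv => ?_
    have h1 := h (a t) v hv
    rw [sum_mul, map_sum] at h1
    have h2 : ∀ s, W.trL (A.prod B) (W.pull (snd A B) (b s) * W.pull (fst A B) (g s) *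
        (W.pull (fst A B) (a t) * W.pull (snd A B) v)) =
          if s = t then W.trL B (b s * v) else 0 := by
      intro s
      have h3 : W.pull (fst A B) (g s) * W.pull (fst A B) (a t) = W.pull (fst A B) (g s * a t) :=
        ((W.pullA (fst A B)).map_mul _ _).symm
      rw [← mul_assoc, mul_assoc (W.pull (snd A B) (b s)), h3, trL_snd_fst_snd, hg]
      split_ifs <;> simp
    rw [sum_congr rfl fun s _ => h2 s, sum_ite_eq' univ t, if_pos (mem_univ _)] at h1
    exact h1
  refine Submodule.sum_mem _ fun s _ => ?_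
  refine par_induction W (P := fun y => W.pull (snd A B) (b s) * W.pull (fst A B) y ∈
    Submodule.span K {t | ∃ a, ∃ g ∈ G, t = W.pull (fst A B) a * W.pull (snd A B) g})
    (fun q y hy => ?_) ?_ (g s)
  · have h1 : W.pull (fst A B) y * W.pull (snd A B) (b s) ∈
        Submodule.span K {t | ∃ a, ∃ g ∈ G, t = W.pull (fst A B) a * W.pull (snd A B) g} :=
      Submodule.subset_span ⟨y, b s, hb s, rfl⟩
    rw [pull_swap_par W hy (hG (hb s))]
    exact zsmul_mem h1 _
  · intro x y hx hy
    rw [pull_add', mul_add]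
    exact Submodule.add_mem _ hx hy

/-- the orthogonal of a subspace of the even or odd part is generated by its even and odd
elements -/
lemma orth_parity {A : SmProjVar k} {G : Submodule K (W.H A)} {p : Bool} (hG : G ≤ par W p A)
    {v : W.H A} (hv : ∀ g ∈ G, W.trL A (g * v) = 0) :
    ∃ v₀ ∈ W.evK A, ∃ v₁ ∈ W.odK A, v₀ + v₁ = v ∧ (∀ g ∈ G, W.trL A (g * v₀) = 0) ∧
      ∀ g ∈ G, W.trL A (g * v₁) = 0 := by
  obtain ⟨v₀, hv₀, v₁, hv₁, rfl⟩ := exists_parity W A v
  refine ⟨v₀, hv₀, v₁, hv₁, rfl, ?_⟩
  cases p with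
  | false =>
    have h2 : ∀ g ∈ G, W.trL A (g * v₁) = 0 := fun g hg =>
      trL_odK W A (W.evK_mul_odK _ _ _ (hG hg) hv₁)
    refine ⟨fun g hg => ?_, h2⟩
    have h1 := hv g hg
    rwa [mul_add, map_add, h2 g hg, add_zero] at h1
  | true =>
    have h2 : ∀ g ∈ G, W.trL A (g * v₀) = 0 := fun g hg =>
      trL_odK W A (odK_mul_evK W _ (hG hg) hv₀)
    refine ⟨h2, fun g hg => ?_⟩
    have h1 := hv g hg
    rwa [mul_add, map_add, h2 g hg, zero_add] at h1

/-- a class on `A × B` which is orthogonal to all `v × x` with `v` orthogonal to the subspace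
`G` of the even or odd part of `H(A)` is a sum of classes `g × x` with `g ∈ G` -/
theorem mem_span_fst_par {A B : SmProjVar k} {γ : W.H (A.prod B)} {G : Submodule K (W.H A)}
    {p : Bool} (hG : G ≤ par W p A)
    (h : ∀ (v : W.H A) (x : W.H B), (∀ g ∈ G, W.trL A (g * v) = 0) →
      W.trL (A.prod B) (γ * (W.pull (fst A B) v * W.pull (snd A B) x)) = 0) :
    γ ∈ Submodule.span K {t | ∃ g ∈ G, ∃ x, t = W.pull (fst A B) g * W.pull (snd A B) x} := by
  classical
  obtain ⟨r, a, g, hexp, hdual⟩ := exists_dual_expansion W B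
  -- the other order of the slots
  have h'' : ∀ (q : Bool), ∀ v ∈ par W q A, (∀ g ∈ G, W.trL A (g * v) = 0) → ∀ x : W.H B,
      W.trL (A.prod B) (γ * (W.pull (snd A B) x * W.pull (fst A B) v)) = 0 := by
    intro q v hvq hv x
    refine par_induction W (P := fun x =>
      W.trL (A.prod B) (γ * (W.pull (snd A B) x * W.pull (fst A B) v)) = 0)
      (fun l x hx => ?_) ?_ x
    · rw [pull_swap_par W hvq hx, mul_smul_comm, map_zsmul, h v x hv, smul_zero]
    · intro y z hy hz
      rw [pull_add', add_mul, mul_add, map_add, hy, hz, add_zero]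
  have h' : ∀ (v : W.H A) (x : W.H B), (∀ g ∈ G, W.trL A (g * v) = 0) →
      W.trL (A.prod B) (γ * (W.pull (snd A B) x * W.pull (fst A B) v)) = 0 := by
    intro v x hv
    obtain ⟨v₀, hv₀, v₁, hv₁, rfl, h0, h1⟩ := orth_parity W hG hv
    rw [pull_add', mul_add, mul_add, map_add, h'' false v₀ hv₀ h0 x, h'' true v₁ hv₁ h1 x,
      add_zero]
  obtain ⟨b, rfl⟩ := exists_slot_expansion' W hexp γ
  have hb : ∀ t, b t ∈ G := by
    intro t
    refine mem_of_orth W fun v hv => ?_
    have h1 := h' v (a t) hv
    rw [sum_mul, map_sum] at h1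
    have h2 : ∀ s, W.trL (A.prod B) (W.pull (fst A B) (b s) * W.pull (snd A B) (g s) *
        (W.pull (snd A B) (a t) * W.pull (fst A B) v)) =
          if s = t then W.trL A (b s * v) else 0 := by
      intro s
      have h3 : W.pull (snd A B) (g s) * W.pull (snd A B) (a t) = W.pull (snd A B) (g s * a t) :=
        ((W.pullA (snd A B)).map_mul _ _).symm
      rw [← mul_assoc, mul_assoc (W.pull (fst A B) (b s)), h3, trL_fst_snd_fst, hdual]
      split_ifs <;> simp
    rw [sum_congr rfl fun s _ => h2 s, sum_ite_eq' univ t, if_pos (mem_univ _)] at h1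
    exact h1
  exact Submodule.sum_mem _ fun s _ => Submodule.subset_span ⟨b s, hb s, g s, rfl⟩

variable {A B : SmProjVar k}

/-- a class with a slot in `G` is orthogonal to the products with a slot orthogonal to `G` -/
lemma tr_contract_par {z : W.H (A.prod B)} {p : Bool} {G : Submodule K (W.H B)}
    (hG : G ≤ par W p B)
    (hzG : z ∈ Submodule.span K {t | ∃ a, ∃ g ∈ G, t = W.pull (fst A B) a * W.pull (snd A B) g})
    {v : W.H B} (hv : ∀ g ∈ G, W.trL B (g * v) = 0) (α : W.H A) :
    W.trL (A.prod B) (z * (W.pull (fst A B) α * W.pull (snd A B) v)) = 0 := by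
  refine par_induction W (P := fun α => W.trL (A.prod B) (z * (W.pull (fst A B) α *
    W.pull (snd A B) v)) = 0) (fun q α hα => ?_) (fun a b ha hb => ?_) α
  · induction hzG using Submodule.span_induction with
    | mem z hz =>
      obtain ⟨a, g, hg, rfl⟩ := hz
      have h1 := pull_swap_par W hα (hG hg)
      have h2 : W.pull (fst A B) a * W.pull (snd A B) g * (W.pull (fst A B) α *
          W.pull (snd A B) v) = (if (p && q) then (-1 : ℤ) else 1) •
            (W.pull (fst A B) (a * α) * W.pull (snd A B) (g * v)) := by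
        rw [mul_assoc, ← mul_assoc (W.pull (snd A B) g), h1, smul_mul_assoc, mul_smul_comm,
          pull_mul', pull_mul']
        simp only [mul_assoc]
      rw [h2, map_zsmul, tr_ext, hv g hg, mul_zero, smul_zero]
    | zero => rw [zero_mul, map_zero]
    | add x y _ _ hx hy => rw [add_mul, map_add, hx, hy, add_zero]
    | smul c x _ hx => rw [smul_mul_assoc, map_smul, hx, smul_zero]
  · rw [pull_add', add_mul, mul_add, map_add, ha, hb, add_zero]

/-- moving a class past odd classes -/
lemma exists_twist_par {p : Bool} {G : Submodule K (W.H B)} (hG : G ≤ par W p B) {v : W.H B}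
    (hv : ∀ g ∈ G, W.trL B (g * v) = 0) :
    ∃ v' : W.H B, (∀ g ∈ G, W.trL B (g * v') = 0) ∧
      ∀ {T : SmProjVar k} (f : T.toOver ⟶ B.toOver) (y : W.H T), y ∈ W.odK T →
        y * W.pull f v = W.pull f v' * y := by
  obtain ⟨v₀, hv₀, v₁, hv₁, rfl, h0, h1⟩ := orth_parity W hG hv
  refine ⟨v₀ - v₁, fun g hg => ?_, fun {T} f y hy => ?_⟩
  · rw [mul_sub, map_sub, h0 g hg, h1 g hg, sub_zero]
  · have h1 : W.pull f (v₀ + v₁) = W.pullA f v₀ + W.pullA f v₁ := map_add (W.pullA f) _ _
    have h2 : W.pull f (v₀ - v₁) = W.pullA f v₀ - W.pullA f v₁ := map_sub (W.pullA f) _ _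
    rw [h1, h2, mul_add, sub_mul, ← W.evK_comm _ _ y (W.pull_evK f _ hv₀),
      W.odK_anti _ y _ hy (W.pull_odK f _ hv₁), sub_eq_add_neg]

/-- contraction of classes on products -/
theorem exists_contraction_slot_par {z a : W.H (A.prod B)}
    {G : Submodule K (W.H B)} {p : Bool} (hG : G ≤ par W p B)
    (hz : z ∈ cycleSpan W.toCohomologyData F (A.prod B))
    (ha : a ∈ cycleSpan W.toCohomologyData F (A.prod B))
    (hzG : z ∈ Submodule.span K {t | ∃ a, ∃ g ∈ G, t = W.pull (fst A B) a * W.pull (snd A B) g})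
    (hza : W.trL (A.prod B) (z * a) ≠ 0) :
    ∃ γ ∈ cycleSpan W.toCohomologyData F (B.prod B), γ ≠ 0 ∧
      γ ∈ Submodule.span K {t | ∃ g ∈ G, ∃ x, t = W.pull (fst B B) g * W.pull (snd B B) x} := by
  obtain ⟨δ, hδ, hδe, hδt⟩ := exists_diag W F B
  obtain ⟨γ, hγ, h⟩ := push_mem_cycleSpan (F := F) W (rr A B) (x := W.pullA (fst (A.prod B) B) z *
    W.pullA (qq A B) a) (mul_mem_cycleSpan W _ (pull_mem_cycleSpan W _ hz)
      (pull_mem_cycleSpan W _ ha))
  refine ⟨γ, hγ, ?_, ?_⟩
  · rintro rfl
    have h1 := h δ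
    rw [zero_mul, map_zero] at h1
    have h2 : W.trL ((A.prod B).prod B) (W.pull (fst (A.prod B) B) z * W.pull (qq A B) a *
        W.pull (rr A B) δ) = 0 := h1.symm
    rw [tr_mul_rr W hδe hδt, pull_mul', pull_ss_fst, pull_ss_qq] at h2
    exact hza h2
  · refine mem_span_fst_par W hG fun v x hv => ?_
    rw [h]
    change W.trL ((A.prod B).prod B) (W.pull (fst (A.prod B) B) z * W.pull (qq A B) a *
      W.pull (rr A B) (W.pull (fst B B) v * W.pull (snd B B) x)) = 0
    rw [pull_rr]
    obtain ⟨v', hv', htw⟩ := exists_twist_par W hG hv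
    have hqq : ∀ α β, W.pull (qq A B) (W.pull (fst A B) α * W.pull (snd A B) β) =
        W.pull (fst (A.prod B) B) (W.pull (fst A B) α) * W.pull (snd (A.prod B) B) β := by
      intro α β
      rw [pull_mul', ← W.pull_comp, ← W.pull_comp, ← W.pull_comp]
      unfold qq
      rw [lift_fst, lift_snd]
    refine prod_induction' W (p := fun a => W.trL ((A.prod B).prod B)
      (W.pull (fst (A.prod B) B) z * W.pull (qq A B) a *
        (W.pull (fst (A.prod B) B) (W.pull (snd A B) v) * W.pull (snd (A.prod B) B) x)) = 0)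
        (fun α β => ?_) (fun a b ha hb => ?_) a
    · rw [hqq]
      obtain ⟨β₀, hβ₀, β₁, hβ₁, rfl⟩ := exists_parity W B β
      have key : ∀ (β w : W.H B), (∀ g ∈ G, W.trL B (g * w) = 0) →
          W.pull (snd (A.prod B) B) β * W.pull (fst (A.prod B) B) (W.pull (snd A B) v) =
            W.pull (fst (A.prod B) B) (W.pull (snd A B) w) * W.pull (snd (A.prod B) B) β →
          W.trL ((A.prod B).prod B) (W.pull (fst (A.prod B) B) z *
            (W.pull (fst (A.prod B) B) (W.pull (fst A B) α) * W.pull (snd (A.prod B) B) β) *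
            (W.pull (fst (A.prod B) B) (W.pull (snd A B) v) * W.pull (snd (A.prod B) B) x)) =
              0 := by
        intro β w hw hcomm
        have h1 : W.pull (fst (A.prod B) B) z *
            (W.pull (fst (A.prod B) B) (W.pull (fst A B) α) * W.pull (snd (A.prod B) B) β) *
            (W.pull (fst (A.prod B) B) (W.pull (snd A B) v) * W.pull (snd (A.prod B) B) x) =
            W.pull (fst (A.prod B) B) (z * (W.pull (fst A B) α * W.pull (snd A B) w)) *
              W.pull (snd (A.prod B) B) (β * x) := by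
          rw [pull_mul', pull_mul', pull_mul']
          calc _ = W.pull (fst (A.prod B) B) z * W.pull (fst (A.prod B) B) (W.pull (fst A B) α) *
                (W.pull (snd (A.prod B) B) β *
                  W.pull (fst (A.prod B) B) (W.pull (snd A B) v)) *
                W.pull (snd (A.prod B) B) x := by simp only [mul_assoc]
            _ = _ := by rw [hcomm]; simp only [mul_assoc]
        rw [h1, tr_ext, tr_contract_par W hG hzG hw, zero_mul]
      have h0 := key β₀ v hv (W.evK_comm _ _ _ (W.pull_evK _ _ hβ₀))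
      have h1 := key β₁ v' hv' (by
        rw [← W.pull_comp, ← W.pull_comp]
        exact htw _ _ (W.pull_odK _ _ hβ₁))
      rw [pull_add', mul_add, mul_add, add_mul, map_add, h0, h1, add_zero]
    · rw [pull_add', mul_add, add_mul, map_add, ha, hb, add_zero]

/-- the last slot of a class on a product is in the subspace `G` of the even or odd part -/
lemma mem_last_slot_par {b : ℕ} {V : Fin (b + 1) → SmProjVar k} {z : W.H (prodVar (pt k) V)}
    {G : Submodule K (W.H (V (Fin.last b)))} {p : Bool} (hG : G ≤ par W p (V (Fin.last b)))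
    (h : ∀ v : ∀ i, W.H (V i), (∀ g ∈ G, W.trL (V (Fin.last b)) (v (Fin.last b) * g) = 0) →
      W.trL (prodVar (pt k) V)
        (z * (extProd W.toCohomologyData (A := pt k) 1 v : W.H (prodVar (pt k) V))) = 0) :
    (z : W.H ((prodVar (pt k) fun i : Fin b => V i.castSucc).prod (V (Fin.last b)))) ∈
      Submodule.span K {t | ∃ a, ∃ g ∈ G,
        t = W.pull (fst (prodVar (pt k) fun i : Fin b => V i.castSucc) (V (Fin.last b))) a *
          W.pull (snd (prodVar (pt k) fun i : Fin b => V i.castSucc) (V (Fin.last b))) g} := by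
  refine mem_span_slot_par W hG fun a v hv => ?_
  have ha : a ∈ Submodule.span K (Set.range fun v : ∀ i : Fin b, W.H (V i.castSucc) =>
      (extProd W.toCohomologyData (A := pt k) 1 v :
        W.H (prodVar (pt k) fun i : Fin b => V i.castSucc))) := by
    rw [span_extProd' W fun i => V i.castSucc]; trivial
  have hv' : ∀ g ∈ G, W.trL (V (Fin.last b)) (v * g) = 0 := by
    intro g hg
    have h1 := trL_mul_par W p (hG hg) v
    rw [hv g hg] at h1
    rcases mul_eq_zero.mp h1.symm with h2 | h2
    · split_ifs at h2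
      · exact absurd h2 (neg_ne_zero.mpr one_ne_zero)
      · exact absurd h2 one_ne_zero
    · exact h2
  induction ha using Submodule.span_induction with
  | mem a ha =>
    obtain ⟨v', rfl⟩ := ha
    have h1 := h (Fin.snoc (α := fun i => W.H (V i)) v' v) (by rw [Fin.snoc_last]; exact hv')
    rw [Can.extProd_succ, Fin.snoc_last] at h1
    have h2 : (fun i : Fin b => (Fin.snoc (α := fun i => W.H (V i)) v' v : ∀ i, W.H (V i))
        i.castSucc) = v' := by
      funext i
      rw [Fin.snoc_castSucc]
    rw [h2] at h1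
    exact h1
  | zero =>
    have h1 : W.pull (fst (prodVar (pt k) fun i : Fin b => V i.castSucc) (V (Fin.last b))) 0 = 0 :=
      map_zero (W.pullA _)
    rw [h1, zero_mul, mul_zero, map_zero]
  | add a a' _ _ ha ha' => rw [pull_add', add_mul, mul_add, map_add, ha, ha', add_zero]
  | smul c a _ ha =>
    have h1 : W.pull (fst (prodVar (pt k) fun i : Fin b => V i.castSucc) (V (Fin.last b)))
        (c • a) = c • W.pull (fst _ _) a := map_smul (W.pullA _) c a
    rw [h1, smul_mul_assoc, mul_smul_comm, map_smul, ha, smul_zero]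

end Pool.Agent.Helper11.BD
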