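import Mathlib
import Pool.Agent.Helper11.GP.Types
import Pool.Agent.Helper11.GN.L4
import Pool.Agent.Helper41.SD.FamPar

/-!
# Specialisations of finite families of varieties
-/

universe u v w u' w'

open CategoryTheory Finset

namespace Pool.Agent.Helper11.BD

open Pool.Agent.Helper10 hiding IsAlgAut parityPart
open SmProjVar Pool.Agent.Helper10.GIT
open Pool.Agent.Helper11.Obs (extProd wordClass prodVar prodFst prodProj IsNumTrivial parityPart
  power wordVar AreRelatedFlags IsTotallyIsotropic)

variable {k : Type u} [Field k] {K : Type v} [Field K] [CharZero K]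
  (W : WeilCohomology.{u, v, w} k K) {F : Subfield K}
  {k' : Type u'} [Field k'] (W' : WeilCohomology.{u', v, w'} k' K)
  {P : ℕ} {V : Fin P → SmProjVar k} {V' : Fin P → SmProjVar k'}
  {φ : ∀ c, W.H (V c) → W'.H (V' c)}

namespace AreSpecializations

variable {W W'} (hφ : AreSpecializations W.toCohomologyData W'.toCohomologyData V V' φ)

include hφ

/-- one member of the family -/
lemma single {c : Fin P} {d : (V c).Z 1} {d' : (V' c).Z 1}
    (hd : φ c (W.cy (V c) 1 d) = W'.cy (V' c) 1 d') :
    IsSpecialization W.toCohomologyData W'.toCohomologyData (V c) d (V' c) d' (φ c) where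
  dim_eq := hφ.dim_eq c
  bijective := hφ.bijective c
  map_add := hφ.map_add c
  map_smul := hφ.map_smul c
  map_one := hφ.map_one c
  map_mul := hφ.map_mul c
  map_mem := hφ.map_mem c
  tr := hφ.tr c
  div := hd
  cycle b j z := hφ.cycle b j (fun _ => c) z

/-- the isomorphisms as linear maps -/
def lin (c : Fin P) : W.H (V c) →ₗ[K] W'.H (V' c) where
  toFun := φ c
  map_add' := hφ.map_add c
  map_smul' := hφ.map_smul c

lemma map_zero' (c : Fin P) : φ c 0 = 0 := _root_.map_zero (hφ.lin c)

lemma trL_eq (c : Fin P) (x : W.H (V c)) : W'.trL (V' c) (φ c x) = W.trL (V c) x := hφ.tr c x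

lemma pairing_eq (c : Fin P) (x y : W.H (V c)) :
    W'.pairing (V' c) (φ c x) (φ c y) = W.pairing (V c) x y := by
  change W'.trL (V' c) (φ c x * φ c y) = W.trL (V c) (x * y)
  rw [← hφ.map_mul, hφ.trL_eq]

/-- the parity is preserved -/
lemma map_par (c : Fin P) {p : ℕ} {x : W.H (V c)}
    (hx : x ∈ parityPart W.toCohomologyData (V c) p) :
    φ c x ∈ parityPart W'.toCohomologyData (V' c) p := by
  unfold Obs.parityPart at hx
  rw [iSup_subtype'] at hx
  induction hx using Submodule.iSup_induction' with
  | mem i x hx => exact gr_le_parityPart W' i.2 (hφ.map_mem c i x hx)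
  | zero => rw [hφ.map_zero']; exact Submodule.zero_mem _
  | add x y _ _ hx hy => rw [hφ.map_add]; exact Submodule.add_mem _ hx hy

/-- the specialisation of combinations of cycle classes -/
lemma exists_spec {b : ℕ} (c : Fin b → Fin P) {z : W.H (prodVar (pt k) fun i => V (c i))}
    (hz : z ∈ cycleSpan W.toCohomologyData F (prodVar (pt k) fun i => V (c i))) :
    ∃ z' ∈ cycleSpan W'.toCohomologyData F (prodVar (pt k') fun i => V' (c i)),
      ∀ x : ∀ i, W.H (V (c i)), W'.trL (prodVar (pt k') fun i => V' (c i))
        (z' * (extProd W'.toCohomologyData (A := pt k') 1 (fun i => φ (c i) (x i)) :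
          W'.H (prodVar (pt k') fun i => V' (c i)))) =
      W.trL (prodVar (pt k) fun i => V (c i))
        (z * (extProd W.toCohomologyData (A := pt k) 1 x :
          W.H (prodVar (pt k) fun i => V (c i)))) := by
  unfold cycleSpan at hz
  induction hz using Submodule.span_induction with
  | mem z hz =>
    obtain ⟨j, y, rfl⟩ := hz
    obtain ⟨y', h⟩ := hφ.cycle b j c y
    exact ⟨_, cy_mem_cycleSpan W' F _ j y', h⟩
  | zero => exact ⟨0, Submodule.zero_mem _, fun x => by
      rw [zero_mul, zero_mul, map_zero, map_zero]⟩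
  | add a b _ _ ha hb =>
    obtain ⟨a', ha', h1⟩ := ha
    obtain ⟨b', hb', h2⟩ := hb
    exact ⟨a' + b', Submodule.add_mem _ ha' hb', fun x => by
      rw [add_mul, add_mul, _root_.map_add, _root_.map_add, h1, h2]⟩
  | smul a x _ hx =>
    obtain ⟨x', hx', h⟩ := hx
    exact ⟨a • x', Submodule.smul_mem _ _ hx', fun x => by
      have h1 : a • x' = (a : K) • x' := rfl
      have h2 : ∀ y : W.H (prodVar (pt k) fun i => V (c i)), a • y = (a : K) • y := fun _ => rfl
      rw [h1, h2, smul_mul_assoc, smul_mul_assoc, _root_.map_smul, _root_.map_smul, h]⟩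

end AreSpecializations

end Pool.Agent.Helper11.BD
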