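import Mathlib
import Pool.Agent.Helper11.GN.L1
import Pool.Agent.Helper11.BD.Aniso

/-!
# Subspaces which are stable under correspondences: slot operators
-/

universe u v w

open CategoryTheory Finset

namespace Pool.Agent.Helper11.BD

open Pool.Agent.Helper10 hiding IsAlgAut parityPart
open SmProjVar Pool.Agent.Helper10.GIT
open Pool.Agent.Helper11.Obs (extProd wordClass prodVar prodFst prodProj IsNumTrivial parityPart
  power wordVar AreRelatedFlags IsTotallyIsotropic)

variable {k : Type u} [Field k] {K : Type v} [Field K] [CharZero K]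
  (W : WeilCohomology.{u, v, w} k K) {F : Subfield K} {X : SmProjVar k}

/-- a totally isotropic subspace of the even or the odd part which is stable under
correspondences -/
structure IsGood (X : SmProjVar k) (p : ℕ) (G : Submodule K (W.H X)) : Prop where
  le : G ≤ parityPart W.toCohomologyData X p
  isotropic : IsTotallyIsotropic W.toCohomologyData X G
  corr : ∀ u : W.H X → W.H X, W.IsAlgebraicMap X X u →
    (∀ y ∈ parityPart W.toCohomologyData X p, u y ∈ parityPart W.toCohomologyData X p) →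
    ∀ y ∈ G, u y ∈ G

variable {W}

/-- multiplication by a power of `d` -/
lemma IsGood.lef_mem {p : ℕ} {G : Submodule K (W.H X)} (hG : IsGood W X p G) (d : X.Z 1) (r : ℕ)
    {y : W.H X} (hy : y ∈ G) : W.lef X d r y ∈ G := by
  have hpow : W.cy X 1 d ^ r ∈ cycleSpan W.toCohomologyData (⊤ : Subfield K) X :=
    pow_mem_cycleSpan W (cy_mem_cycleSpan W ⊤ X 1 d) r
  have hL := Ro.IsMapOver.isAlgebraicMap W (isMapOver_mul W hpow)
  refine hG.corr _ hL (fun y hy => ?_) y hy
  unfold Obs.parityPart at hy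
  rw [iSup_subtype'] at hy
  induction hy using Submodule.iSup_induction' with
  | mem s y hy =>
    refine gr_le_parityPart W (j := s + 2 * r) ?_ (lef_gr W hy)
    have h1 : Even ((s : ℕ) + p) := s.2
    rw [Nat.even_iff] at h1 ⊢
    omega
  | zero => rw [mul_zero]; exact Submodule.zero_mem _
  | add y y' _ _ hy hy' => rw [mul_add]; exact Submodule.add_mem _ hy hy'

lemma IsGood.isotropic_lef {p : ℕ} {G : Submodule K (W.H X)} (hG : IsGood W X p G) (d : X.Z 1)
    (r : ℕ) {x y : W.H X} (hx : x ∈ G) (hy : y ∈ G) : W.pairing X x (W.lef X d r y) = 0 :=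
  hG.isotropic x hx _ (hG.lef_mem d r hy)

/-- correspondences to a homogeneous part -/
lemma IsGood.corr_gr {π : Fin (2 * X.dim + 1) → W.H X →ₗ[K] W.H X} (hπ : Projs W F X π) {p : ℕ}
    {G : Submodule K (W.H X)} (hG : IsGood W X p G) {u : W.H X → W.H X}
    (hu : W.IsAlgebraicMap X X u) {s t : Fin (2 * X.dim + 1)} (hst : Even ((s : ℕ) + t))
    (hust : ∀ x ∈ W.gr X s, u x ∈ W.gr X t) {y : W.H X} (hy : y ∈ G) : u (π s y) ∈ G := by
  have hπs := Ro.IsMapOver.isAlgebraicMap (F := F) W (hπ.map s)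
  refine hG.corr (fun y => u (π s y)) (Zt.isAlgebraicMap_comp W hπs hu) (fun y hy => ?_) y hy
  by_cases he : Even ((s : ℕ) + p)
  · refine gr_le_parityPart W (j := t) ?_ (hust _ (hπ.mem s y))
    rw [Nat.even_iff] at he hst ⊢
    omega
  · rw [hπ.parity s hy he, isAlgebraicMap_apply_zero W hu]
    exact Submodule.zero_mem _

/-- the projections -/
lemma IsGood.proj_mem {π : Fin (2 * X.dim + 1) → W.H X →ₗ[K] W.H X} (hπ : Projs W F X π) {p : ℕ}
    {G : Submodule K (W.H X)} (hG : IsGood W X p G) (s : Fin (2 * X.dim + 1)) {y : W.H X}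
    (hy : y ∈ G) : π s y ∈ G :=
  hG.corr_gr hπ (Ro.IsMapOver.isAlgebraicMap (F := ⊤) W (Ro.isMapOver_id W X))
    (s := s) (t := s) (Even.add_self _) (fun _ hx => hx) hy

/-- the primitive decomposition -/
lemma IsGood.lefDec {π : Fin (2 * X.dim + 1) → W.H X →ₗ[K] W.H X} (hπ : Projs W F X π) {d : X.Z 1}
    (hd : HardLefschetz W.toCohomologyData X d)
    (hB : LefschetzStandard W.toCohomologyData F X d) {i r : ℕ} (hir : i + r = X.dim) {p : ℕ}
    {G : Submodule K (W.H X)} (hG : IsGood W X p G) {x : W.H X} (hx : x ∈ G ⊓ W.gr X i) :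
    ∃ y : ℕ → W.H X, IsLefDec W X d i r x y ∧ ∀ j, W.lef X d j (y j) ∈ G ⊓ W.gr X i := by
  obtain ⟨lam, hlam, hdec⟩ := exists_lefDec W hd hB hir
  have hi : i < 2 * X.dim + 1 := by omega
  have hmem : ∀ j, ∀ x ∈ W.gr X i, W.lef X d j (lam j x) ∈ W.gr X i := by
    intro j x hx
    rcases Nat.lt_or_ge i (2 * j) with h | h
    · have h1 := (hdec x hx).zero j h
      have h2 : lam j x = 0 := h1
      rw [h2, lef_zero]
      exact Submodule.zero_mem _
    · have h1 := lef_gr W (d := d) (r := j) ((hdec x hx).mem j h)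
      rwa [show i - 2 * j + 2 * j = i by omega] at h1
  refine ⟨fun j => lam j x, hdec x hx.2, fun j => ⟨?_, hmem j x hx.2⟩⟩
  have hL : IsMapOver W.toCohomologyData F X fun x => W.lef X d j x :=
    isMapOver_mul W (pow_mem_cycleSpan W (cy_mem_cycleSpan W F X 1 d) j)
  have h1 := hG.corr_gr hπ (Ro.IsMapOver.isAlgebraicMap W (Ro.isMapOver_comp W (hlam j) hL))
    (s := ⟨i, hi⟩) (t := ⟨i, hi⟩) (Even.add_self _) (hmem j) hx.1
  rwa [hπ.self ⟨i, hi⟩ x hx.2] at h1

/-- the slot operators -/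
lemma exists_slot_op {π : Fin (2 * X.dim + 1) → W.H X →ₗ[K] W.H X} (hπ : Projs W F X π)
    {d : X.Z 1} (hd : HardLefschetz W.toCohomologyData X d)
    (hB : LefschetzStandard W.toCohomologyData F X d) (j : Fin (2 * X.dim + 1)) :
    ∃ (i r : ℕ) (wj : W.H X →ₗ[K] W.H X), i + r = X.dim ∧
      IsMapOver W.toCohomologyData F X wj ∧ (∀ x : W.H X, wj x ∈ W.gr X (2 * X.dim - j)) ∧
      (∀ y ∈ W.gr X (2 * X.dim - j), ∃ x, wj x = y) ∧
      ∀ (p : ℕ) (G : Submodule K (W.H X)), IsGood W X p G → ∀ v : W.H X,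
        (∀ g ∈ G ⊓ W.gr X i, W.trL X (v * g) = 0) → ∀ f ∈ G, W.trL X (wj v * f) = 0 := by
  have hj := j.2
  have hi : (2 * X.dim - j : ℕ) < 2 * X.dim + 1 := by omega
  by_cases hjn : (j : ℕ) ≤ X.dim
  · refine ⟨j, X.dim - j, π ⟨2 * X.dim - j, hi⟩, by omega, hπ.map _,
      fun x => hπ.mem ⟨2 * X.dim - j, hi⟩ x, fun y hy => ⟨y, hπ.self ⟨2 * X.dim - j, hi⟩ y hy⟩,
      fun p G hG v hv f hf => ?_⟩
    rw [hπ.trL (i := ⟨2 * X.dim - j, hi⟩) (j := j)
        (by change (2 * X.dim - j : ℕ) + j = 2 * X.dim; omega) v f]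
    exact hv _ ⟨hG.proj_mem hπ j hf, hπ.mem j f⟩
  · -- the inverse of the Lefschetz operator
    set i : Fin (2 * X.dim + 1) := ⟨2 * X.dim - j, hi⟩ with hidef
    have hiv : (i : ℕ) = 2 * X.dim - j := rfl
    set r : ℕ := j - X.dim with hr
    have hir : (i : ℕ) + r = X.dim := by omega
    have hj2 : (i : ℕ) + 2 * r = j := by omega
    obtain ⟨u, hu, hu1⟩ := hB i r hir
    obtain ⟨U, hU⟩ := Ro.IsMapOver.exists_linear W hu
    have hT : IsMapOver W.toCohomologyData F X fun x => π i (u (π j x)) :=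
      Ro.isMapOver_comp W (Ro.isMapOver_comp W (hπ.map j) hu) (hπ.map i)
    let T : W.H X →ₗ[K] W.H X := π i ∘ₗ U ∘ₗ π j
    have hT' : ∀ x, T x = π i (u (π j x)) := fun x => by
      change π i (U (π j x)) = _
      rw [hU]
    have hTmap : IsMapOver W.toCohomologyData F X T := by
      have h1 : (T : W.H X → W.H X) = fun x => π i (u (π j x)) := funext hT'
      rw [h1]
      exact hT
    have hTmem : ∀ x, T x ∈ W.gr X i := fun x => by rw [hT']; exact hπ.mem i _
    have hTL : ∀ y ∈ W.gr X i, T (W.lef X d r y) = y := by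
      intro y hy
      have h1 : W.lef X d r y ∈ W.gr X j := by
        have := lef_gr W (d := d) (r := r) hy
        rwa [hj2] at this
      rw [hT', hπ.self j _ h1, hu1 y hy, hπ.self i y hy]
    have hLT : ∀ x ∈ W.gr X j, W.lef X d r (T x) = x := by
      intro x hx
      rw [← hj2] at hx
      obtain ⟨y, hy, rfl⟩ := (hd i r hir).2 x hx
      rw [hTL y hy]
    have hLmul : ∀ x y : W.H X, W.trL X (W.lef X d r x * y) = W.trL X (x * W.lef X d r y) := by
      intro x y
      change W.trL X (W.cy X 1 d ^ r * x * y) = W.trL X (x * (W.cy X 1 d ^ r * y))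
      have h1 : W.cy X 1 d ^ r ∈ W.evK X :=
        W.gr_le_evK _ (show Even (r * (2 * 1)) by rw [Nat.even_iff]; omega)
          (pow_gr W (W.cycleClasses.cy_mem X 1 d) r)
      rw [W.evK_comm _ _ x h1, mul_assoc]
    refine ⟨i, r, T, hir, hTmap, fun x => hTmem x, fun y hy => ⟨_, hTL y hy⟩,
      fun p G hG v hv f hf => ?_⟩
    -- `⟨T v, f⟩ = ⟨T v, π_j f⟩ = ⟨T v, L T π_j f⟩ = ⟨L T v, T π_j f⟩ = ⟨v, T π_j f⟩`
    have h0 : W.trL X (T v * f) = W.trL X (T v * π j f) := by
      have h1 := hπ.trL (i := i) (j := j) (by omega) (T v) f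
      rwa [hπ.self i _ (hTmem v)] at h1
    have h1 : W.trL X (T v * π j f) = W.trL X (T v * W.lef X d r (T (π j f))) := by
      rw [hLT _ (hπ.mem j f)]
    have h2 : W.lef X d r (T v) = π j v := by
      have h3 : T v = T (π j v) := by rw [hT', hT', hπ.idem]
      rw [h3, hLT _ (hπ.mem j v)]
    rw [h0, h1, ← hLmul, h2, hπ.trL (i := j) (j := i) (by omega), hπ.self i _ (hTmem _)]
    refine hv _ ⟨?_, hTmem _⟩
    refine hG.corr_gr hπ (Ro.IsMapOver.isAlgebraicMap W hTmap) (s := j) (t := i) ?_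
      (fun x _ => hTmem x) hf
    rw [Nat.even_iff]
    omega

end Pool.Agent.Helper11.BD
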