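import Mathlib
import Pool.Agent.Helper41.SD.FamM
import Pool.Agent.Helper11.GP.T2
import Pool.Agent.Helper11.BP.Thm

/-!
# The standard conjecture D for all products of varieties which specialise
-/

universe u v w u' w'

open CategoryTheory Finset

namespace Pool.Agent.Helper11.BD

open Pool.Agent.Helper10 hiding IsAlgAut parityPart
open SmProjVar Pool.Agent.Helper10.GIT
open Pool.Agent.Helper11.Obs (extProd wordClass prodVar prodFst prodProj IsNumTrivial parityPart
  power wordVar AreRelatedFlags IsTotallyIsotropic)

variable {k : Type u} [Field k] {K : Type v} [Field K] [CharZero K]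
  (W : WeilCohomology.{u, v, w} k K) {F : Subfield K}
  {k' : Type u'} [Field k'] (W' : WeilCohomology.{u', v, w'} k' K)

/-- every member of a family is spanned by its even and its odd part -/
lemma isSpanned_of_parity {P : ℕ} (X : Fin P → SmProjVar k) (i : Fin P) :
    Ro.IsSpanned W.toCohomologyData (P := P * 2) (fun q => X q.divNat)
      (fun q => parityPart W.toCohomologyData (X q.divNat) (q.modNat : ℕ)) (X i) := by
  unfold Ro.IsSpanned
  rw [eq_top_iff]
  intro x _
  refine W.gr_induction (X i) (p := fun x => x ∈ Submodule.span K _) (fun s x hx => ?_)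
    (Submodule.zero_mem _) (fun a b ha hb => Submodule.add_mem _ ha hb) x
  obtain ⟨q, hq, hp⟩ : ∃ q : Fin (P * 2), q.divNat = i ∧
      q.modNat = if Even s then 0 else 1 :=
    ⟨finProdFinEquiv (i, if Even s then 0 else 1),
      congrArg Prod.fst (finProdFinEquiv.symm_apply_apply (i, if Even s then 0 else 1)),
      congrArg Prod.snd (finProdFinEquiv.symm_apply_apply (i, if Even s then 0 else 1))⟩
  subst hq
  refine Submodule.subset_span ⟨X q.divNat, fun x => x, x,
    Ro.IsMapOver.isAlgebraicMap (F := ⊤) W (Ro.isMapOver_id W (X q.divNat)), ?_, rfl⟩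
  refine ⟨1, fun _ => q, fun _ => 𝟙 (X q.divNat).toOver, fun _ => x, fun _ => ?_, ?_⟩
  · refine gr_le_parityPart W ?_ hx
    rw [hp]
    by_cases hs : Even s
    · rw [if_pos hs]
      simpa using hs
    · rw [if_neg hs]
      rw [Nat.not_even_iff_odd] at hs
      exact hs.add_one
  · rw [List.ofFn_succ, List.ofFn_zero, List.prod_cons, List.prod_nil, mul_one]
    exact (W.pull_id (X q.divNat) x).symm

/-- **D for all products of specialisations and D for all products.** -/
theorem standardD_iff_of_specializations {P : ℕ} {X : Fin P → SmProjVar k}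
    {X' : Fin P → SmProjVar k'} {φ : ∀ c, W.H (X c) → W'.H (X' c)} {d : ∀ c, (X c).Z 1}
    {d' : ∀ c, (X' c).Z 1}
    (hd : ∀ c, HardLefschetz W.toCohomologyData (X c) (d c))
    (hφ : AreSpecializations W.toCohomologyData W'.toCohomologyData X X' φ)
    (hdiv : ∀ c, φ c (W.cy (X c) 1 (d c)) = W'.cy (X' c) 1 (d' c))
    (hD : ∀ (b : ℕ) (c : Fin b → Fin P), W'.StandardD (prodVar (pt k') fun i => X' (c i)))
    {e : ∀ c, ((X' c).prod (X' c)).Z 1}
    (he : ∀ c, W'.cy ((X' c).prod (X' c)) 1 (e c) = W'.pull (fst (X' c) (X' c))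
      (W'.cy (X' c) 1 (d' c)) + W'.pull (snd (X' c) (X' c)) (W'.cy (X' c) 1 (d' c)))
    (hH : ∀ c, W'.HodgeType ((X' c).prod (X' c)) (e c)) :
    (∀ T, W.DominatedBy (fun Z => ∃ (b : ℕ) (c : Fin b → Fin P),
        Z = prodVar (pt k) fun i => X (c i)) T → W.StandardD T) ↔
      ∀ c, LefschetzStandard W.toCohomologyData F (X c) (d c) := by
  constructor
  · intro h c
    exact lefschetzStandard_of_standardD W (hd c) fun b =>
      h _ (dominatedBy_self W ⟨b, fun _ => c, rfl⟩)
  · intro hB T hT
    refine standardD_of_dominatedBy W (fun Z hZ => ?_) hT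
    obtain ⟨b, c, rfl⟩ := hZ
    have hB0 : ∀ c, LefschetzStandard W.toCohomologyData (ratField K) (X c) (d c) := fun c =>
      (lefschetzStandard_iff W (hd c) (ratField_le F)).mpr (hB c)
    choose π hπ using fun c => exists_projs W (exists_proj_of_standard W (hB0 c))
    let V : Fin (P * 2) → SmProjVar k := fun q => X q.divNat
    let E : ∀ q : Fin (P * 2), Submodule K (W.H (V q)) := fun q =>
      parityPart W.toCohomologyData (X q.divNat) (q.modNat : ℕ)
    have hE : ∀ q, Ro.IsPieceOver W.toCohomologyData (ratField K) (V q) (E q) := fun q =>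
      (hπ q.divNat).isPieceOver W (q.modNat : ℕ)
    have hφ₂ : AreSpecializations W.toCohomologyData W'.toCohomologyData V
        (fun q => X' q.divNat) fun q => φ q.divNat :=
      { dim_eq := fun q => hφ.dim_eq q.divNat
        bijective := fun q => hφ.bijective q.divNat
        map_add := fun q => hφ.map_add q.divNat
        map_smul := fun q => hφ.map_smul q.divNat
        map_one := fun q => hφ.map_one q.divNat
        map_mul := fun q => hφ.map_mul q.divNat
        map_mem := fun q => hφ.map_mem q.divNat
        tr := fun q => hφ.tr q.divNat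
        cycle := fun b j c z => hφ.cycle b j (fun i => (c i).divNat) z }
    refine standardD_of_areSpecializations W W' hφ₂ hE (fun q => ?_)
      (fun b c => hD b fun i => (c i).divNat) ?_
    · have hc := hφ.single (hdiv q.divNat)
      have hd' := hc.hardLefschetz (hd q.divNat)
      exact hasNoIsotropicClass_parityPart W W' hc (hd q.divNat) (hB0 q.divNat)
        (lefschetzStandard_of_standardD W' hd' fun b => hD b fun _ => q.divNat) (he q.divNat)
        (hH q.divNat) _
    · exact Ro.isSpanned_prodVar W (fun q => (hE q).isPiece) (Ro.isSpanned_pt W) _ fun i =>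
        isSpanned_of_parity W X (c i)

end Pool.Agent.Helper11.BD
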