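import Mathlib
import Pool.Agent.Helper10.HD.Final
import Pool.Agent.Helper10.HD.Single

/-!
# Under the standard conjecture of Hodge type: the range of conjecture D
-/

universe u v w

open CategoryTheory TensorProduct

namespace Pool.Agent.Helper41.SD

open Pool.Agent.Helper10 SmProjVar Pool.Agent.Helper10.HD

variable {k : Type u} [Field k] {K : Type v} [Field K] [CharZero K]
  (W : WeilCohomology.{u, v, w} k K)

/-- For `n = dim X`, the multiplication by `d ^ (n - 2 i)` maps the `ℚ`-span of the classes of cycles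
of codimension `i` onto that in codimension `n - i`. -/
def LefschetzOnto (X : SmProjVar k) (d : X.Z 1) (i : ℕ) : Prop :=
  ∀ r, 2 * i + r = X.dim → ∀ z : X.Z (i + r), ∃ (m : ℤ) (y : X.Z i), m ≠ 0 ∧
    W.intMul X m (W.cy X (i + r) z) = W.lef X d r (W.cy X i y)

variable {W} {X : SmProjVar k} {d : X.Z 1}

private lemma cyG_mul_pow {j : ℕ} {x : W.H X} (hx : x ∈ W.cyG X j) (r : ℕ) :
    W.cy X 1 d ^ r * x ∈ W.cyG X (j + r) := by
  obtain ⟨c, rfl⟩ := hx
  obtain ⟨z, hz⟩ := cy_mul_pow W X d j r c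
  exact ⟨z, hz.symm⟩

private lemma cyG_gr {j : ℕ} {x : W.H X} (hx : x ∈ W.cyG X j) : x ∈ W.gr X (2 * j) := by
  obtain ⟨c, rfl⟩ := hx
  exact W.cycleClasses.cy_mem X j c

private lemma cyG_zero {j : ℕ} (hj : X.dim < j) {x : W.H X} (hx : x ∈ W.cyG X j) : x = 0 := by
  obtain ⟨c, rfl⟩ := hx
  exact cy_eq_zero_of_lt W hj c

private lemma cyG_cast {i j : ℕ} (h : i = j) {x : W.H X} (hx : x ∈ W.cyG X i) :
    x ∈ W.cyG X j := h ▸ hx

private lemma cyG_comm {i j : ℕ} {x y : W.H X} (hx : x ∈ W.cyG X i) (hy : y ∈ W.cyG X j) :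
    x * y = y * x := by
  rw [(W.graded X).comm (2 * i) (2 * j) x y (cyG_gr hx) (cyG_gr hy), mul_assoc,
    pow_mul, neg_one_sq, one_pow, one_smul]

/-- moving powers of `d` -/
private lemma tr_move {i : ℕ} {x y : W.H X} (hx : x ∈ W.cyG X i) (r : ℕ) :
    W.trL X ((W.cy X 1 d ^ r * x) * y) = W.trL X (x * (W.cy X 1 d ^ r * y)) := by
  have h : W.cy X 1 d ^ r * x = x * W.cy X 1 d ^ r := by
    induction r with
    | zero => rw [pow_zero, one_mul, mul_one]
    | succ r ih =>
      rw [pow_succ', mul_assoc, ih, ← mul_assoc, cyG_comm (W.cy_mem_cyG d) hx, mul_assoc]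
  rw [h, mul_assoc]

/-- `x` is orthogonal to the cycles of codimension complementary to `j` -/
private def NT (W : WeilCohomology.{u, v, w} k K) (X : SmProjVar k) (j : ℕ) (x : W.H X) : Prop :=
  ∀ i, j + i = X.dim → ∀ y ∈ W.cyG X i, W.trL X (x * y) = 0

private lemma pos (hH : W.HodgeType X d) {p r : ℕ} (hpr : 2 * p + r = X.dim) {x : W.H X}
    (hx : x ∈ W.cyG X p) (h1 : W.cy X 1 d ^ (r + 1) * x = 0)
    (h2 : W.trL X (x * (W.cy X 1 d ^ r * x)) = 0) : x = 0 := by
  obtain ⟨c, rfl⟩ := hx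
  by_contra h0
  obtain ⟨i, hi, hi'⟩ := hH p r hpr c h1 h0
  have h3 : W.trL X (W.cy X p c * (W.cy X 1 d ^ r * W.cy X p c)) = (-1) ^ p * (i : K) := hi'
  rw [h2] at h3
  have h4 : ((-1 : K) ^ p * (i : K)) ≠ 0 :=
    mul_ne_zero (pow_ne_zero p (neg_ne_zero.mpr one_ne_zero)) (by exact_mod_cast hi.ne')
  exact h4 h3.symm

private lemma zsmul_eq_zero {m : ℤ} (hm : m ≠ 0) {x : W.H X} (h : m • x = 0) : x = 0 := by
  have h1 : ((m : K)) • x = 0 := by rw [Int.cast_smul_eq_zsmul, h]
  exact (smul_eq_zero.mp h1).resolve_left (by exact_mod_cast hm)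

private lemma tr_zsmul (m : ℤ) (x : W.H X) : W.trL X (m • x) = (m : K) * W.trL X x := by
  rw [← Int.cast_smul_eq_zsmul K, map_smul, smul_eq_mul]

private lemma tr_zsmul_eq_zero {m : ℤ} (hm : m ≠ 0) {x : W.H X} (h : W.trL X (m • x) = 0) :
    W.trL X x = 0 := by
  rw [tr_zsmul] at h
  exact (mul_eq_zero.mp h).resolve_left (by exact_mod_cast hm)

private lemma onto {i r : ℕ} (h : LefschetzOnto W X d i) (hir : 2 * i + r = X.dim) {x : W.H X}
    (hx : x ∈ W.cyG X (i + r)) : ∃ (m : ℤ), m ≠ 0 ∧ ∃ y ∈ W.cyG X i,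
      m • x = W.cy X 1 d ^ r * y := by
  obtain ⟨c, rfl⟩ := hx
  obtain ⟨m, y, hm, hy⟩ := h r hir c
  exact ⟨m, hm, _, W.cy_mem_cyG y, hy⟩

/-- numerically trivial classes in low codimension -/
private lemma low (hH : W.HodgeType X d) {p : ℕ} (hp : ∀ i < p, LefschetzOnto W X d i) :
    ∀ (j r : ℕ), j ≤ p → 2 * j + r = X.dim → ∀ x ∈ W.cyG X j, NT W X j x → x = 0 := by
  intro j
  induction j with
  | zero =>
    intro r _ hr x hx hN
    refine pos hH hr hx (cyG_zero (j := 0 + (r + 1)) (by omega) (cyG_mul_pow hx (r + 1))) ?_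
    exact hN r (by omega) _ (cyG_cast (by omega) (cyG_mul_pow hx r))
  | succ j ih =>
    intro r hjp hr x hx hN
    have hx1 : W.cy X 1 d ^ (r + 1) * x ∈ W.cyG X (j + (r + 2)) :=
      cyG_cast (by omega) (cyG_mul_pow hx (r + 1))
    obtain ⟨m, hm, y, hy, hxy⟩ := onto (hp j (by omega)) (by omega) hx1
    -- the primitive part
    have hdy : W.cy X 1 d ^ 1 * y ∈ W.cyG X (j + 1) := cyG_mul_pow hy 1
    have hx0 : m • x - W.cy X 1 d ^ 1 * y ∈ W.cyG X (j + 1) :=
      sub_mem (zsmul_mem hx m) hdy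
    have hprim : W.cy X 1 d ^ (r + 1) * (m • x - W.cy X 1 d ^ 1 * y) = 0 := by
      rw [mul_sub, mul_smul_comm, hxy, ← mul_assoc, ← pow_add, sub_self]
    have hx0r := cyG_mul_pow (d := d) hx0 r
    have he : ∀ v : W.H X, W.cy X 1 d ^ 1 * (W.cy X 1 d ^ r * v) = W.cy X 1 d ^ (r + 1) * v :=
      fun v => by rw [← mul_assoc, ← pow_add, add_comm]
    have h0 : m • x - W.cy X 1 d ^ 1 * y = 0 := by
      refine pos hH hr hx0 hprim ?_
      rw [sub_mul, map_sub, smul_mul_assoc, tr_zsmul,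
        hN (j + 1 + r) (by omega) _ hx0r, mul_zero, zero_sub, neg_eq_zero,
        tr_move hy, he, hprim, mul_zero, map_zero]
    have hmx : m • x = W.cy X 1 d ^ 1 * y := sub_eq_zero.mp h0
    have hy0 : y = 0 := by
      refine ih (r + 2) (by omega) (by omega) y hy ?_
      intro i hi c hc
      obtain ⟨m', hm', w, hw, hcw⟩ := onto (r := r + 2) (hp j (by omega)) (by omega)
        (cyG_cast (show i = j + (r + 2) by omega) hc)
      refine tr_zsmul_eq_zero hm' ?_
      rw [← mul_smul_comm, hcw, show r + 2 = 1 + (r + 1) by omega, pow_add, mul_assoc,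
        ← tr_move hy, ← hmx, smul_mul_assoc, tr_zsmul,
        hN (j + (r + 1)) (by omega) _ (cyG_mul_pow hw (r + 1)), mul_zero]
    refine zsmul_eq_zero hm ?_
    rw [hmx, hy0, mul_zero]

/-- **Range of conjecture D under the conjecture of Hodge type.**  If the multiplications by
`d ^ (n - 2 i)` on classes of cycles of codimension `i` are onto for all `i < p`, then numerical
and homological equivalence agree for cycles of codimension `j` on `X` if `j ≤ p` or
`j ≥ n - p + 1`. -/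
theorem range (hH : W.HodgeType X d) {p : ℕ} (hp : ∀ i < p, LefschetzOnto W X d i) (j : ℕ)
    (hj : j ≤ p ∨ X.dim < j + p) (a b : X.Z j) (hab : W.NumEquiv X j a b) : W.HomEquiv X j a b := by
  have hx : W.cy X j a - W.cy X j b ∈ W.cyG X j :=
    sub_mem (W.cy_mem_cyG a) (W.cy_mem_cyG b)
  have hN : NT W X j (W.cy X j a - W.cy X j b) := by
    rintro i hi _ ⟨c, rfl⟩
    rw [sub_mul, map_sub, sub_eq_zero]
    have h1 := W.cycleClasses.tr_cy_mul X j i a c hi
    have h2 := W.cycleClasses.tr_cy_mul X j i b c hi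
    rw [hab i hi c, ← h2] at h1
    exact h1
  refine sub_eq_zero.mp ?_
  by_cases hjn : X.dim < j
  · exact cyG_zero hjn hx
  by_cases hj2 : 2 * j ≤ X.dim
  · have hjp : j ≤ p := by omega
    exact low hH hp j (X.dim - 2 * j) hjp (by omega) _ hx hN
  · -- high codimension
    have hi : X.dim - j < p := by omega
    obtain ⟨m, hm, y, hy, hxy⟩ := onto (i := X.dim - j) (r := 2 * j - X.dim) (hp _ hi) (by omega)
      (cyG_cast (show j = X.dim - j + (2 * j - X.dim) by omega) hx)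
    have hy0 : y = 0 := by
      refine low hH hp (X.dim - j) (2 * j - X.dim) (by omega) (by omega) y hy ?_
      intro i hi' c hc
      obtain ⟨m', hm', w, hw, hcw⟩ := onto (i := X.dim - j) (r := 2 * j - X.dim) (hp _ hi)
        (by omega) (cyG_cast (show i = X.dim - j + (2 * j - X.dim) by omega) hc)
      refine tr_zsmul_eq_zero hm' ?_
      rw [← mul_smul_comm, hcw, ← tr_move hy, ← hxy, smul_mul_assoc, tr_zsmul,
        hN (X.dim - j) (by omega) _ hw, mul_zero]
    refine zsmul_eq_zero hm ?_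
    rw [hxy, hy0, mul_zero]

end Pool.Agent.Helper41.SD
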